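import Mathlib
import Pool.Agent.W313.HB.Stm2

/-!
# Project HB, part LARGE
-/

set_option autoImplicit false

namespace Pool.Agent.W461.HB

open Finset Polynomial
open Pool.Agent.W313.HB
open scoped NumberTheorySymbols

/-- the signed modulus -/
def mm (k : ℕ) : ℤ := if k % 4 = 1 then (k : ℤ) else -(k : ℤ)

theorem abs_mm (k : ℕ) : |mm k| = (k : ℤ) := by
  unfold mm
  split_ifs
  · exact abs_of_nonneg (by positivity)
  · rw [abs_neg]; exact abs_of_nonneg (by positivity)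

theorem recip (n k : ℕ) (hn : Odd n) (hk : Odd k) : jacobiSym (n : ℤ) k = jacobiSym (mm k) n := by
  unfold mm
  split_ifs with h
  · exact (jacobiSym.quadratic_reciprocity_one_mod_four h hn).symm
  · have hk3 : k % 4 = 3 := by
      rcases Nat.odd_mod_four_iff.mp (Nat.odd_iff.mp hk) with h1 | h1
      · exact absurd h1 h
      · exact h1
    rw [jacobiSym.neg _ hn]
    rcases Nat.odd_mod_four_iff.mp (Nat.odd_iff.mp hn) with h1 | h1
    · rw [ZMod.χ₄_nat_one_mod_four h1, one_mul]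
      exact jacobiSym.quadratic_reciprocity_one_mod_four h1 hk
    · rw [ZMod.χ₄_nat_three_mod_four h1]
      rw [jacobiSym.quadratic_reciprocity_three_mod_four h1 hk3]
      ring

theorem eq_of_sq (a b : ℕ) (ha : Squarefree a) (hb : Squarefree b) (h : IsSquare (a * b)) : a = b := by
  have ha0 : a ≠ 0 := ha.ne_zero
  have hb0 : b ≠ 0 := hb.ne_zero
  obtain ⟨r, hr⟩ := h
  have hr0 : r ≠ 0 := by
    rintro rfl
    simp [ha0, hb0] at hr
  refine Nat.eq_of_factorization_eq ha0 hb0 fun p => ?_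
  have h1 := ha.natFactorization_le_one p
  have h2 := hb.natFactorization_le_one p
  have h3 : (a * b).factorization p = (r * r).factorization p := by rw [hr]
  rw [Nat.factorization_mul ha0 hb0, Nat.factorization_mul hr0 hr0] at h3
  simp only [Finsupp.add_apply] at h3
  omega

theorem mm_sq (k l : ℕ) (hk : Squarefree k) (hl : Squarefree l) (h : IsSquare (mm k * mm l)) : k = l := by
  refine eq_of_sq k l hk hl ?_
  obtain ⟨r, hr⟩ := h
  refine ⟨r.natAbs, ?_⟩
  have h1 : (mm k * mm l).natAbs = (r * r).natAbs := by rw [hr]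
  rw [Int.natAbs_mul, Int.natAbs_mul] at h1
  have h2 : ∀ k, (mm k).natAbs = k := by
    intro k
    have := abs_mm k
    rw [Int.abs_eq_natAbs] at this
    exact_mod_cast this
  rw [h2, h2] at h1
  exact h1

theorem large_ (h1 : S_LSV) (h2 : S_COMMON) (h3 : S_SIZE) : S_LARGE := by
  classical
  intro F hF
  obtain ⟨C1, U1, E1, hC1, hcom⟩ := h2 F hF
  obtain ⟨C2, U2, hsize⟩ := h3 F hF
  refine ⟨C1, 2 * C2 + 7, max (max U1 U2) 4, E1, hC1, ?_⟩
  intro U hU E hE M t1 hM hMU ht1 I c T hT hc hI hcard X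
  have hU1 : U1 ≤ U := le_trans (le_trans (le_max_left _ _) (le_max_left _ _)) hU
  have hU2 : U2 ≤ U := le_trans (le_trans (le_max_right _ _) (le_max_left _ _)) hU
  have hU4 : 4 ≤ U := le_trans (le_max_right _ _) hU
  have hU4R : (4 : ℝ) ≤ U := by exact_mod_cast hU4
  have hTR : (T : ℝ) ≤ U := by exact_mod_cast hT
  have hT0 : (0 : ℝ) ≤ T := Nat.cast_nonneg _
  have hL := h1 (ℕ × ℕ) I c (fun x => mm x.2) 0 X (Nat.zero_le X)
  have hIcc : Icc 1 X = Ioc 0 X := rfl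
  have e1 : ∑ n ∈ (Icc 1 X).filter (fun n => Odd n), (∑ x ∈ I, c x * (jacobiSym (n : ℤ) x.2 : ℝ)) ^ 2 =
      ∑ n ∈ (Ioc 0 X).filter (fun n => Odd n), (∑ x ∈ I, c x * (jacobiSym (mm x.2) n : ℝ)) ^ 2 := by
    rw [hIcc]
    refine Finset.sum_congr rfl fun n hn => ?_
    congr 1
    refine Finset.sum_congr rfl fun x hx => ?_
    rw [recip n x.2 (Finset.mem_filter.mp hn).2 (hI x hx).2.1]
  rw [e1]
  refine hL.trans (add_le_add ?_ ?_)
  · -- the diagonal
    set P := (I ×ˢ I).filter (fun x => IsSquare (mm x.1.2 * mm x.2.2)) with hP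
    set S := (((Ioc U (2 * U)) ×ˢ (Ioc U (2 * U))).filter (fun x : ℕ × ℕ => ∃ q : ℕ, q.Prime ∧ E < q ∧ ¬ q ∣ M ∧
      (q : ℤ) ∣ val F t1 M x.1 ∧ (q : ℤ) ∣ val F t1 M x.2)) with hS
    have hScard : (S.card : ℝ) ≤ C1 * ((U : ℝ) ^ 2 / E + U) := hcom U hU1 E hE M t1 hM hMU ht1
    have hPS : P.card ≤ T * S.card := by
      refine Finset.card_le_mul_card_image_of_maps_to (f := fun x => (x.1.1, x.2.1)) ?_ T ?_
      · intro x hx
        rw [hP, Finset.mem_filter, Finset.mem_product] at hx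
        obtain ⟨⟨hx1, hx2⟩, hsq⟩ := hx
        obtain ⟨a1, a2, a3, a4, a5, a6⟩ := hI x.1 hx1
        obtain ⟨b1, b2, b3, b4, b5, b6⟩ := hI x.2 hx2
        have hkk : x.1.2 = x.2.2 := mm_sq _ _ a3 b3 hsq
        rw [hS, Finset.mem_filter, Finset.mem_product]
        refine ⟨⟨a1, b1⟩, x.1.2.minFac, Nat.minFac_prime a4.ne', ?_, ?_, ?_, ?_⟩
        · exact (a6 _ (Nat.minFac_prime a4.ne') (Nat.minFac_dvd _)).1
        · exact (a6 _ (Nat.minFac_prime a4.ne') (Nat.minFac_dvd _)).2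
        · exact dvd_trans (Int.natCast_dvd_natCast.mpr (Nat.minFac_dvd _)) a5
        · refine dvd_trans (Int.natCast_dvd_natCast.mpr ?_) b5
          rw [← hkk]
          exact Nat.minFac_dvd _
      · intro b _
        refine le_trans ?_ (hcard b.1)
        refine Finset.card_le_card_of_injOn (fun x => x.1) ?_ ?_
        · intro x hx
          have hx' : x ∈ P.filter (fun x => (x.1.1, x.2.1) = b) := hx
          rw [Finset.mem_filter, hP, Finset.mem_filter, Finset.mem_product] at hx'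
          show x.1 ∈ I.filter (fun x => x.1 = b.1)
          rw [Finset.mem_filter]
          exact ⟨hx'.1.1.1, by rw [← hx'.2]⟩
        · intro x hx y hy hxy
          have hx' : x ∈ P.filter (fun x => (x.1.1, x.2.1) = b) := hx
          have hy' : y ∈ P.filter (fun x => (x.1.1, x.2.1) = b) := hy
          rw [Finset.mem_filter, hP, Finset.mem_filter, Finset.mem_product] at hx' hy'
          have kx : x.1.2 = x.2.2 := mm_sq _ _ (hI _ hx'.1.1.1).2.2.1 (hI _ hx'.1.1.2).2.2.1 hx'.1.2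
          have ky : y.1.2 = y.2.2 := mm_sq _ _ (hI _ hy'.1.1.1).2.2.1 (hI _ hy'.1.1.2).2.2.1 hy'.1.2
          have hxy' : x.1 = y.1 := hxy
          have h5 : x.2.1 = b.2 := by rw [← hx'.2]
          have h6 : y.2.1 = b.2 := by rw [← hy'.2]
          refine Prod.ext hxy' (Prod.ext ?_ ?_)
          · rw [h5, h6]
          · rw [← kx, ← ky, hxy']
    have hsum : ∑ x ∈ P, |c x.1| * |c x.2| ≤ (P.card : ℝ) * ((T : ℝ) * T) := by
      rw [← nsmul_eq_mul]
      refine Finset.sum_le_card_nsmul _ _ _ fun x hx => ?_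
      rw [hP, Finset.mem_filter, Finset.mem_product] at hx
      exact mul_le_mul (hc _ hx.1.1) (hc _ hx.1.2) (abs_nonneg _) hT0
    have hPR : (P.card : ℝ) ≤ T * (C1 * ((U : ℝ) ^ 2 / E + U)) := by
      have : (P.card : ℝ) ≤ T * S.card := by exact_mod_cast hPS
      exact this.trans (mul_le_mul_of_nonneg_left hScard hT0)
    have hX : ((X : ℕ) : ℝ) - ((0 : ℕ) : ℝ) = X := by simp
    rw [hX]
    calc (X : ℝ) * ∑ x ∈ P, |c x.1| * |c x.2| ≤ X * ((P.card : ℝ) * ((T : ℝ) * T)) :=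
          mul_le_mul_of_nonneg_left hsum (Nat.cast_nonneg _)
      _ ≤ X * ((T * (C1 * ((U : ℝ) ^ 2 / E + U))) * ((T : ℝ) * T)) :=
          mul_le_mul_of_nonneg_left (mul_le_mul_of_nonneg_right hPR (mul_nonneg hT0 hT0)) (Nat.cast_nonneg _)
      _ = C1 * X * (T : ℝ) ^ 3 * ((U : ℝ) ^ 2 / E + U) := by ring
  · -- the second term
    have hcI : I.card ≤ U * T := by
      have hh : I.card ≤ T * (Ioc U (2 * U)).card :=
        Finset.card_le_mul_card_image_of_maps_to (f := fun x => x.1) (fun x hx => (hI x hx).1) T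
          (fun b _ => hcard b)
      rw [Nat.card_Ioc] at hh
      have : 2 * U - U = U := by omega
      rw [this, mul_comm] at hh
      exact hh
    have hcIR : (I.card : ℝ) ≤ U * T := by exact_mod_cast hcI
    have hU0 : (0 : ℝ) ≤ U := Nat.cast_nonneg _
    have hterm : ∀ x ∈ I, |c x| * |((mm x.2 : ℤ) : ℝ)| ≤ (T : ℝ) * (U : ℝ) ^ C2 := by
      intro x hx
      obtain ⟨a1, a2, a3, a4, a5, a6⟩ := hI x hx
      rw [Finset.mem_Ioc] at a1
      obtain ⟨s1, s2, _⟩ := hsize U hU2 M t1 x.1 hM hMU ht1 a1.1 a1.2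
      refine mul_le_mul (hc x hx) ?_ (abs_nonneg _) hT0
      have h7 : |((mm x.2 : ℤ) : ℝ)| = (x.2 : ℝ) := by
        rw [← Int.cast_abs, abs_mm]; simp
      rw [h7]
      have h8 : (x.2 : ℤ) ≤ |val F t1 M x.1| :=
        Int.le_of_dvd (abs_pos.mpr s1) ((dvd_abs _ _).mpr a5)
      have h9 : (x.2 : ℤ) ≤ (U : ℤ) ^ C2 := h8.trans s2
      exact_mod_cast h9
    have hsum : ∑ x ∈ I, |c x| * |((mm x.2 : ℤ) : ℝ)| ≤ (U : ℝ) ^ (C2 + 3) := by
      calc ∑ x ∈ I, |c x| * |((mm x.2 : ℤ) : ℝ)| ≤ (I.card : ℝ) * ((T : ℝ) * (U : ℝ) ^ C2) := by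
            rw [← nsmul_eq_mul]
            exact Finset.sum_le_card_nsmul _ _ _ hterm
        _ ≤ (U * T) * ((T : ℝ) * (U : ℝ) ^ C2) := mul_le_mul_of_nonneg_right hcIR (by positivity)
        _ ≤ (U * U) * ((U : ℝ) * (U : ℝ) ^ C2) := by gcongr
        _ = (U : ℝ) ^ (C2 + 3) := by ring
    have hnn : 0 ≤ ∑ x ∈ I, |c x| * |((mm x.2 : ℤ) : ℝ)| := Finset.sum_nonneg fun x _ => by positivity
    calc 4 * (∑ x ∈ I, |c x| * |((mm x.2 : ℤ) : ℝ)|) ^ 2 ≤ (U : ℝ) * ((U : ℝ) ^ (C2 + 3)) ^ 2 := by gcongr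
      _ = (U : ℝ) ^ (2 * C2 + 7) := by ring

end Pool.Agent.W461.HB
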